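import Mathlib

/-!
# A reversible recurrent chain with positive `L²` critical inverse temperature
-/

set_option autoImplicit false

open MeasureTheory ProbabilityTheory Filter Topology
open scoped ENNReal

namespace Pool.Agent.Results.MP_6abe48_pr.ReversibleRecurrent

/-- The law of `S_n` under `P_x` for the Markov chain whose transition probabilities are
`P x y`. -/
noncomputable def stepN {V : Type} (P : V → PMF V) : ℕ → V → PMF V
  | 0, x => PMF.pure x
  | n + 1, x => (P x).bind (stepN P n)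

/-- Irreducibility. -/
def Irred {V : Type} (P : V → PMF V) : Prop := ∀ x y : V, ∃ n : ℕ, stepN P n x y ≠ 0

/-- Reversibility with respect to some positive measure. -/
def Reversible {V : Type} (P : V → PMF V) : Prop :=
  ∃ π : V → NNReal, (∀ x, 0 < π x) ∧ ∀ x y : V, (π x : ℝ≥0∞) * P x y = π y * P y x

/-- Recurrence: the expected number of visits of the chain to its starting point is infinite. -/
def Recurrent {V : Type} (P : V → PMF V) : Prop := ∀ x : V, ∑' n : ℕ, stepN P n x x = ⊤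

/-- The laws of the environment variables: mean zero, variance one, and finite exponential
moments of all positive orders. -/
structure EnvLaw (μ : Measure ℝ) : Prop where
  prob : IsProbabilityMeasure μ
  expMoment : ∀ β : ℝ, 0 < β → Integrable (fun t => Real.exp (β * t)) μ
  mean : ∫ t, t ∂μ = 0
  var : ∫ t, t ^ 2 ∂μ = 1

/-- `Λ(β) = log E[exp(β ω)]`. -/
noncomputable def logMGF (μ : Measure ℝ) (β : ℝ) : ℝ := Real.log (∫ t, Real.exp (β * t) ∂μ)

/-- The probability that the first `n` steps of the chain from `x` are `s 0, …, s (n-1)`. -/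
noncomputable def pathProb {V : Type} (P : V → PMF V) {n : ℕ} (x : V) (s : Fin n → V) : ℝ≥0∞ :=
  ∏ i : Fin n, P ((Fin.cons x s : Fin (n + 1) → V) i.castSucc) (s i)

/-- The partition function `Z_n(x)`, in the environment `ω`, where `ω (i, v)` is the variable
of time `i + 1` and vertex `v`. -/
noncomputable def Z {V : Type} (P : V → PMF V) (β : ℝ) (n : ℕ) (x : V) (ω : ℕ × V → ℝ) : ℝ≥0∞ :=
  ∑' s : Fin n → V, pathProb P x s * ENNReal.ofReal (Real.exp (β * ∑ i : Fin n, ω (i, s i)))

/-- The normalised partition function `W_n(x, β) = Z_n(x) exp(-n Λ(β))`. -/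
noncomputable def W {V : Type} (P : V → PMF V) (μ : Measure ℝ) (β : ℝ) (n : ℕ) (x : V)
    (ω : ℕ × V → ℝ) : ℝ≥0∞ :=
  Z P β n x ω * ENNReal.ofReal (Real.exp (-(n * logMGF μ β)))

/-- `sup_n E[W_n(x, β)²] < ∞`, the environment being independent with law `μ`. -/
def L2Bounded {V : Type} (P : V → PMF V) (μ : Measure ℝ) (β : ℝ) (x : V) : Prop :=
  (⨆ n : ℕ, ∫⁻ ω, (W P μ β n x ω) ^ 2 ∂(Measure.infinitePi (fun _ : ℕ × V => μ))) < ⊤

/-- The `L²` critical value `β_2`. -/
noncomputable def beta2 {V : Type} (P : V → PMF V) (μ : Measure ℝ) (x : V) : ℝ≥0∞ :=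
  sSup {b : ℝ≥0∞ | ∃ β : NNReal, b = β ∧ L2Bounded P μ β x}

section General

variable {V : Type} (P : V → PMF V) (β : ℝ)

/-- recursive form of the partition function, from time `k` on -/
noncomputable def R : ℕ → ℕ → V → (ℕ × V → ℝ) → ℝ≥0∞
  | _, 0, _, _ => 1
  | k, n + 1, x, ω =>
    ∑' y, P x y * (ENNReal.ofReal (Real.exp (β * ω (k, y))) * R (k + 1) n y ω)

lemma pathProb_cons {n : ℕ} (x y : V) (s : Fin n → V) :
    pathProb P x (Fin.cons y s : Fin (n + 1) → V) = P x y * pathProb P y s := by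
  unfold pathProb
  rw [Fin.prod_univ_succ]
  simp only [Fin.castSucc_zero, Fin.cons_zero, Fin.cons_succ, ← Fin.succ_castSucc]

lemma R_eq (k n : ℕ) (x : V) (ω : ℕ × V → ℝ) :
    ∑' s : Fin n → V, pathProb P x s *
      ENNReal.ofReal (Real.exp (β * ∑ i : Fin n, ω (k + i, s i))) = R P β k n x ω := by
  induction n generalizing k x with
  | zero =>
    rw [tsum_eq_single (default : Fin 0 → V)]
    · simp [pathProb, R]
    · intro b hb; exact absurd (Subsingleton.elim _ _) hb
  | succ n ih =>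
    rw [← (Fin.consEquiv (fun _ : Fin (n + 1) => V)).tsum_eq, ENNReal.tsum_prod']
    simp only [R]
    refine tsum_congr fun y => ?_
    rw [← ih (k + 1) y, ← ENNReal.tsum_mul_left, ← ENNReal.tsum_mul_left]
    refine tsum_congr fun s => ?_
    have h1 : (Fin.consEquiv (fun _ : Fin (n + 1) => V)) (y, s) = (Fin.cons y s : Fin (n+1) → V) :=
      rfl
    rw [h1, pathProb_cons, Fin.sum_univ_succ]
    simp only [Fin.val_zero, add_zero, Fin.cons_zero, Fin.val_succ, Fin.cons_succ]
    rw [mul_add, Real.exp_add, ENNReal.ofReal_mul (Real.exp_pos _).le]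
    have h2 : ∀ i : Fin n, k + ((i : ℕ) + 1) = k + 1 + i := fun i => by ring
    simp only [h2]
    ring

lemma Z_eq (n : ℕ) (x : V) (ω : ℕ × V → ℝ) : Z P β n x ω = R P β 0 n x ω := by
  rw [← R_eq]; simp [Z]

lemma meas_R [Countable V] {Ω : Type} [MeasurableSpace Ω] (X : ℕ × V → Ω → ℝ) (n : ℕ) :
    ∀ (k : ℕ) (x : V), (∀ p, k ≤ p.1 → Measurable (X p)) →
      Measurable (fun o => R P β k n x (fun p => X p o)) := by
  induction n with
  | zero => intro k x _; simp only [R]; exact measurable_const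
  | succ n ih =>
    intro k x hX
    simp only [R]
    refine Measurable.ennreal_tsum fun y => ?_
    refine Measurable.const_mul ?_ _
    refine Measurable.mul ?_ (ih (k + 1) y fun p hp => hX p (by omega))
    exact ((hX (k, y) le_rfl).const_mul β).exp.ennreal_ofReal

/-- the sigma-algebra of a set of coordinates -/
abbrev sig (S : Set (ℕ × V)) : MeasurableSpace (ℕ × V → ℝ) :=
  ⨆ p ∈ S, MeasurableSpace.comap (fun ω : ℕ × V → ℝ => ω p) inferInstance

lemma meas_sig {S : Set (ℕ × V)} {p : ℕ × V} (hp : p ∈ S) :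
    Measurable[sig S] (fun ω : ℕ × V → ℝ => ω p) := by
  refine Measurable.mono (comap_measurable _) ?_ le_rfl
  exact le_iSup₂_of_le p hp le_rfl

lemma sig_le (S : Set (ℕ × V)) : sig S ≤ (inferInstance : MeasurableSpace (ℕ × V → ℝ)) := by
  refine iSup₂_le fun p _ => ?_
  exact (measurable_pi_apply p).comap_le

lemma sig_indep (μ : Measure ℝ) [IsProbabilityMeasure μ] {S T : Set (ℕ × V)}
    (h : Disjoint S T) :
    Indep (sig S) (sig T) (Measure.infinitePi (fun _ : ℕ × V => μ)) := by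
  have hi : iIndepFun (fun (p : ℕ × V) (ω : ℕ × V → ℝ) => ω p)
      (Measure.infinitePi (fun _ : ℕ × V => μ)) := by
    have := iIndepFun_infinitePi (P := fun _ : ℕ × V => μ) (X := fun _ t => t)
      (fun _ => measurable_id)
    exact this
  exact indep_iSup_of_disjoint (fun p => (measurable_pi_apply p).comap_le) hi.iIndep h

variable (μ : Measure ℝ) [IsProbabilityMeasure μ]

/-- the exponential moment -/
noncomputable def M (γ : ℝ) : ℝ≥0∞ := ∫⁻ t, ENNReal.ofReal (Real.exp (γ * t)) ∂μ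

lemma lint_eval (f : ℝ → ℝ≥0∞) (hf : Measurable f) (p : ℕ × V) :
    ∫⁻ ω, f (ω p) ∂(Measure.infinitePi (fun _ : ℕ × V => μ)) = ∫⁻ t, f t ∂μ := by
  have := (measurePreserving_eval_infinitePi (fun _ : ℕ × V => μ) p)
  exact this.lintegral_comp hf

/-- the pair moment -/
noncomputable def F (k n : ℕ) (x y : V) : ℝ≥0∞ :=
  ∫⁻ ω, R P β k n x ω * R P β k n y ω ∂(Measure.infinitePi (fun _ : ℕ × V => μ))

open Classical in
/-- the one-step weight -/
noncomputable def wt (x y : V) : ℝ≥0∞ := if x = y then M μ (2 * β) else M μ β * M μ β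

lemma wt_eq (k : ℕ) (x y : V) :
    ∫⁻ ω, ENNReal.ofReal (Real.exp (β * ω (k, x))) * ENNReal.ofReal (Real.exp (β * ω (k, y)))
      ∂(Measure.infinitePi (fun _ : ℕ × V => μ)) = wt β μ x y := by
  unfold wt
  split_ifs with h
  · subst h
    rw [M, ← lint_eval μ _ (by fun_prop) (k, x)]
    refine lintegral_congr fun ω => ?_
    rw [← ENNReal.ofReal_mul (Real.exp_pos _).le, ← Real.exp_add]
    ring_nf
  · have h1 : Disjoint ({(k, x)} : Set (ℕ × V)) {(k, y)} := by
      simp [h]
    rw [lintegral_mul_eq_lintegral_mul_lintegral_of_independent_measurableSpace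
      (sig_le {(k, x)}) (sig_le {(k, y)}) (sig_indep μ h1)]
    · rw [M, ← lint_eval μ (fun t => ENNReal.ofReal (Real.exp (β * t))) (by fun_prop) (k, x)]
      congr 1
      rw [lint_eval μ (fun t => ENNReal.ofReal (Real.exp (β * t))) (by fun_prop) (k, x),
        lint_eval μ (fun t => ENNReal.ofReal (Real.exp (β * t))) (by fun_prop) (k, y)]
    · have := meas_sig (V := V) (S := {(k, x)}) (p := (k, x)) rfl
      exact ((this.const_mul β).exp).ennreal_ofReal
    · have := meas_sig (V := V) (S := {(k, y)}) (p := (k, y)) rfl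
      exact ((this.const_mul β).exp).ennreal_ofReal

lemma F_succ [Countable V] (k n : ℕ) (x y : V) :
    F P β μ k (n + 1) x y =
      ∑' x', ∑' y', P x x' * P y y' * (wt β μ x' y' * F P β μ (k + 1) n x' y') := by
  have hm : ∀ (k n : ℕ) (x : V), Measurable (fun ω => R P β k n x ω) := fun k n x =>
    meas_R P β (fun (p : ℕ × V) (ω : ℕ × V → ℝ) => ω p) n k x (fun p _ => measurable_pi_apply p)
  have he : ∀ (k : ℕ) (x : V), Measurable
      (fun ω : ℕ × V → ℝ => ENNReal.ofReal (Real.exp (β * ω (k, x)))) := by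
    intro k x
    have h : Measurable (fun ω : ℕ × V → ℝ => ω (k, x)) := measurable_pi_apply (k, x)
    exact ((h.const_mul β).exp).ennreal_ofReal
  have hall : ∀ (k : ℕ) (x' y' : V), Measurable (fun ω : ℕ × V → ℝ =>
      (ENNReal.ofReal (Real.exp (β * ω (k, x'))) * ENNReal.ofReal (Real.exp (β * ω (k, y')))) *
          (R P β (k + 1) n x' ω * R P β (k + 1) n y' ω)) := by
    intro k x' y'
    exact ((he k x').mul (he k y')).mul ((hm _ _ _).mul (hm _ _ _))
  unfold F
  have h1 : ∀ ω : ℕ × V → ℝ, R P β k (n + 1) x ω * R P β k (n + 1) y ω =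
      ∑' x', ∑' y', P x x' * P y y' *
        ((ENNReal.ofReal (Real.exp (β * ω (k, x'))) * ENNReal.ofReal (Real.exp (β * ω (k, y')))) *
          (R P β (k + 1) n x' ω * R P β (k + 1) n y' ω)) := by
    intro ω
    simp only [R]
    rw [← ENNReal.tsum_mul_right]
    refine tsum_congr fun x' => ?_
    rw [← ENNReal.tsum_mul_left]
    refine tsum_congr fun y' => ?_
    ring
  rw [lintegral_congr h1, lintegral_tsum]
  swap
  · intro x'
    refine (Measurable.ennreal_tsum fun y' => ?_).aemeasurable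
    exact (hall k x' y').const_mul _
  refine tsum_congr fun x' => ?_
  rw [lintegral_tsum]
  swap
  · intro y'
    exact ((hall k x' y').const_mul _).aemeasurable
  refine tsum_congr fun y' => ?_
  rw [lintegral_const_mul _ (hall k x' y')]
  congr 1
  have hd : Disjoint ({p | p.1 = k} : Set (ℕ × V)) {p | k + 1 ≤ p.1} := by
    rw [Set.disjoint_left]
    intro p hp hq
    simp only [Set.mem_setOf_eq] at hp hq
    omega
  rw [lintegral_mul_eq_lintegral_mul_lintegral_of_independent_measurableSpace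
      (sig_le _) (sig_le _) (sig_indep μ hd), wt_eq]
  · have h2 := meas_sig (V := V) (S := {p | p.1 = k}) (p := (k, x')) rfl
    have h3 := meas_sig (V := V) (S := {p | p.1 = k}) (p := (k, y')) rfl
    exact (((h2.const_mul β).exp).ennreal_ofReal).mul (((h3.const_mul β).exp).ennreal_ofReal)
  · have h4 : ∀ z : V, Measurable[sig {p : ℕ × V | k + 1 ≤ p.1}] (fun ω => R P β (k + 1) n z ω) :=
      fun z => @meas_R V P β _ (ℕ × V → ℝ) (sig {p : ℕ × V | k + 1 ≤ p.1}) (fun (p : ℕ × V) (ω : ℕ × V → ℝ) => ω p) n (k+1)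
        z (fun p hp => meas_sig hp)
    exact (h4 x').mul (h4 y')

/-- `D f (x, y) = Σ P(x, x') P(y, y') f(x', y')` -/
noncomputable def D (f : V → V → ℝ≥0∞) (x y : V) : ℝ≥0∞ :=
  ∑' x', ∑' y', P x x' * P y y' * f x' y'

lemma D_mono {f g : V → V → ℝ≥0∞} (h : ∀ x y, f x y ≤ g x y) (x y : V) :
    D P f x y ≤ D P g x y := by
  unfold D
  gcongr with x' y'
  exact h _ _

lemma D_add (f g : V → V → ℝ≥0∞) (x y : V) :
    D P (fun x y => f x y + g x y) x y = D P f x y + D P g x y := by
  unfold D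
  rw [← ENNReal.tsum_add]
  refine tsum_congr fun x' => ?_
  rw [← ENNReal.tsum_add]
  refine tsum_congr fun y' => ?_
  ring

lemma D_mul (c : ℝ≥0∞) (f : V → V → ℝ≥0∞) (x y : V) :
    D P (fun x y => c * f x y) x y = c * D P f x y := by
  unfold D
  rw [← ENNReal.tsum_mul_left]
  refine tsum_congr fun x' => ?_
  rw [← ENNReal.tsum_mul_left]
  refine tsum_congr fun y' => ?_
  ring

lemma D_one (x y : V) : D P (fun _ _ => 1) x y = 1 := by
  unfold D
  have h1 : ∀ x', ∑' y', P x x' * P y y' * 1 = P x x' := by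
    intro x'
    simp only [mul_one]
    rw [ENNReal.tsum_mul_left, PMF.tsum_coe, mul_one]
  simp only [h1]
  exact PMF.tsum_coe _

lemma D_tsum (f : ℕ → V → V → ℝ≥0∞) (x y : V) :
    D P (fun x y => ∑' n, f n x y) x y = ∑' n, D P (f n) x y := by
  unfold D
  rw [ENNReal.tsum_comm]
  have h1 : ∀ x', ∑' (n : ℕ), ∑' (y' : V), P x x' * P y y' * f n x' y' =
      ∑' (y' : V), P x x' * P y y' * ∑' (n : ℕ), f n x' y' := by
    intro x'
    rw [ENNReal.tsum_comm]
    refine tsum_congr fun y' => ?_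
    rw [ENNReal.tsum_mul_left]
  rw [ENNReal.tsum_comm]
  conv_rhs => rw [ENNReal.tsum_comm]
  exact (tsum_congr fun x' => (h1 x').symm)

open Classical in
/-- indicator of the diagonal -/
noncomputable def coll (x y : V) : ℝ≥0∞ := if x = y then 1 else 0

/-- probability that two independent copies are at the same place at time `m` -/
noncomputable def q (m : ℕ) (x y : V) : ℝ≥0∞ := ∑' v, stepN P m x v * stepN P m y v

lemma q_zero (x y : V) : q P 0 x y = coll x y := by
  unfold q coll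
  rw [tsum_eq_single x]
  · simp [stepN, PMF.pure_apply]
  · intro v hv
    simp [stepN, PMF.pure_apply, hv]

lemma q_succ (m : ℕ) (x y : V) : q P (m + 1) x y = D P (q P m) x y := by
  unfold q D
  simp only [stepN, PMF.bind_apply]
  have h1 : ∀ v, (∑' a, P x a * stepN P m a v) * (∑' a, P y a * stepN P m a v) =
      ∑' x', ∑' y', P x x' * P y y' * (stepN P m x' v * stepN P m y' v) := by
    intro v
    rw [← ENNReal.tsum_mul_right]
    refine tsum_congr fun x' => ?_
    rw [← ENNReal.tsum_mul_left]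
    refine tsum_congr fun y' => ?_
    ring
  simp only [h1]
  rw [ENNReal.tsum_comm]
  refine tsum_congr fun x' => ?_
  rw [ENNReal.tsum_comm]
  refine tsum_congr fun y' => ?_
  rw [ENNReal.tsum_mul_left]

/-- expected number of collisions after time zero -/
noncomputable def g (x y : V) : ℝ≥0∞ := ∑' m, q P (m + 1) x y

lemma g_eq (x y : V) : D P (fun x y => coll x y + g P x y) x y = g P x y := by
  have h1 : ∀ x y, coll x y + g P x y = ∑' m, q P m x y := by
    intro x y
    rw [tsum_eq_zero_add' ENNReal.summable, q_zero]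
    rfl
  simp only [h1]
  rw [D_tsum]
  unfold g
  exact tsum_congr fun m => (q_succ P m x y).symm

lemma super {G δ : ℝ≥0∞} (hG : ∀ x y, g P x y ≤ G) (hδ : 2 * δ * G ≤ 1) (x y : V) :
    D P (fun x y => (1 + δ * coll x y) * (1 + 2 * δ * g P x y)) x y ≤ 1 + 2 * δ * g P x y := by
  have h1 : ∀ x y : V, (1 + δ * coll x y) * (1 + 2 * δ * g P x y) ≤
      1 + 2 * δ * (coll x y + g P x y) := by
    intro x y
    have h2 : 2 * δ * g P x y ≤ 1 := le_trans (by gcongr; exact hG x y) hδ
    calc (1 + δ * coll x y) * (1 + 2 * δ * g P x y)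
        = 1 + 2 * δ * g P x y + δ * coll x y + δ * coll x y * (2 * δ * g P x y) := by ring
      _ ≤ 1 + 2 * δ * g P x y + δ * coll x y + δ * coll x y * 1 := by gcongr
      _ = 1 + 2 * δ * (coll x y + g P x y) := by ring
  refine (D_mono P h1 x y).trans ?_
  rw [D_add P (fun _ _ => 1) (fun x y => 2 * δ * (coll x y + g P x y)), D_one,
    D_mul P (2 * δ) (fun x y => coll x y + g P x y), g_eq]

lemma F_bound [Countable V] {G δ : ℝ≥0∞} (hG : ∀ x y, g P x y ≤ G) (hδ : 2 * δ * G ≤ 1)
    (hM : M μ (2 * β) ≤ (1 + δ) * (M μ β * M μ β)) (n : ℕ) : ∀ (k : ℕ) (x y : V),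
    F P β μ k n x y ≤ (M μ β * M μ β) ^ n * (1 + 2 * δ * g P x y) := by
  induction n with
  | zero =>
    intro k x y
    simp only [F, R, mul_one, lintegral_const, measure_univ, pow_zero, one_mul]
    exact le_self_add
  | succ n ih =>
    intro k x y
    rw [F_succ]
    calc ∑' x', ∑' y', P x x' * P y y' * (wt β μ x' y' * F P β μ (k + 1) n x' y')
        ≤ ∑' x', ∑' y', P x x' * P y y' * ((M μ β * M μ β * (1 + δ * coll x' y')) *
            ((M μ β * M μ β) ^ n * (1 + 2 * δ * g P x' y'))) := by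
          gcongr with x' y'
          · unfold wt coll
            split_ifs with h
            · rw [mul_one, mul_comm (M μ β * M μ β)]; exact hM
            · simp
          · exact ih (k + 1) x' y'
      _ = (M μ β * M μ β) ^ (n + 1) *
            D P (fun x y => (1 + δ * coll x y) * (1 + 2 * δ * g P x y)) x y := by
          rw [← D_mul]
          unfold D
          refine tsum_congr fun x' => tsum_congr fun y' => ?_
          ring
      _ ≤ _ := by
          gcongr
          exact super P hG hδ x y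

omit [IsProbabilityMeasure μ] in
lemma M_eq (hi : Integrable (fun t => Real.exp (β * t)) μ) :
    M μ β = ENNReal.ofReal (∫ t, Real.exp (β * t) ∂μ) := by
  unfold M
  rw [ofReal_integral_eq_lintegral_ofReal hi]
  exact ae_of_all _ fun t => (Real.exp_pos _).le

lemma L2_of_bound [Countable V] {C : ℝ≥0∞} (hC : C < ⊤)
    (hi : Integrable (fun t => Real.exp (β * t)) μ) (x : V)
    (h : ∀ n, F P β μ 0 n x x ≤ (M μ β * M μ β) ^ n * C) : L2Bounded P μ β x := by
  unfold L2Bounded
  refine lt_of_le_of_lt (iSup_le fun n => ?_) hC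
  have hpos : 0 < ∫ t, Real.exp (β * t) ∂μ := integral_exp_pos hi
  have hm : Measurable (fun ω => R P β 0 n x ω) :=
    meas_R P β (fun (p : ℕ × V) (ω : ℕ × V → ℝ) => ω p) n 0 x (fun p _ => measurable_pi_apply p)
  have h1 : ∫⁻ ω, (W P μ β n x ω) ^ 2 ∂(Measure.infinitePi (fun _ : ℕ × V => μ)) =
      F P β μ 0 n x x * (ENNReal.ofReal (Real.exp (-(n * logMGF μ β)))) ^ 2 := by
    unfold F
    have hmm : Measurable (fun ω => R P β 0 n x ω * R P β 0 n x ω) := hm.mul hm
    rw [← lintegral_mul_const _ hmm]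
    refine lintegral_congr fun ω => ?_
    unfold W
    rw [Z_eq]
    ring
  rw [h1]
  refine (mul_le_mul_left (h n) _).trans ?_
  have h2 : ENNReal.ofReal (Real.exp (-(n * logMGF μ β))) * (M μ β) ^ n = 1 := by
    rw [M_eq β μ hi, ← ENNReal.ofReal_pow hpos.le, ← ENNReal.ofReal_mul (Real.exp_pos _).le]
    rw [← ENNReal.ofReal_one]
    congr 1
    unfold logMGF
    rw [← mul_neg, mul_comm (n : ℝ), Real.exp_mul, Real.exp_neg, Real.exp_log hpos,
      Real.rpow_natCast, inv_pow, inv_mul_cancel₀ (pow_pos hpos _).ne']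
  calc (M μ β * M μ β) ^ n * C * ENNReal.ofReal (Real.exp (-(n * logMGF μ β))) ^ 2
      = (ENNReal.ofReal (Real.exp (-(n * logMGF μ β))) * (M μ β) ^ n) *
        (ENNReal.ofReal (Real.exp (-(n * logMGF μ β))) * (M μ β) ^ n) * C := by
          rw [mul_pow]; ring
    _ ≤ C := by rw [h2]; simp

end General

section Env

variable {μ : Measure ℝ}

lemma M_tendsto (h : EnvLaw μ) (c : ℝ) (hc : 0 < c) :
    Tendsto (fun k : ℕ => M μ (c / (k + 1))) atTop (𝓝 1) := by
  have := h.prob
  have h1 : (1 : ℝ≥0∞) = ∫⁻ _ : ℝ, 1 ∂μ := by simp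
  rw [h1]
  unfold M
  refine tendsto_lintegral_of_dominated_convergence
    (fun t => ENNReal.ofReal (1 + Real.exp (c * t))) (fun k => by fun_prop) ?_ ?_ ?_
  · intro k
    refine ae_of_all _ fun t => ?_
    refine ENNReal.ofReal_le_ofReal ?_
    rcases le_total t 0 with ht | ht
    · have : Real.exp (c / (k + 1) * t) ≤ 1 := by
        rw [Real.exp_le_one_iff]
        exact mul_nonpos_of_nonneg_of_nonpos (by positivity) ht
      linarith [Real.exp_pos (c * t)]
    · have : Real.exp (c / (k + 1) * t) ≤ Real.exp (c * t) := by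
        apply Real.exp_le_exp.mpr
        apply mul_le_mul_of_nonneg_right _ ht
        exact div_le_self hc.le (by linarith [(Nat.cast_nonneg k : (0 : ℝ) ≤ k)])
      linarith
  · have hi : Integrable (fun t => 1 + Real.exp (c * t)) μ :=
      (integrable_const 1).add (h.expMoment c hc)
    rw [← ofReal_integral_eq_lintegral_ofReal hi]
    · exact ENNReal.ofReal_ne_top
    · exact ae_of_all _ fun t => by positivity
  · refine ae_of_all _ fun t => ?_
    have h2 : Tendsto (fun k : ℕ => c / ((k : ℝ) + 1) * t) atTop (𝓝 (0 * t)) := by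
      refine Tendsto.mul_const _ ?_
      have := (tendsto_one_div_add_atTop_nhds_zero_nat (𝕜 := ℝ)).const_mul c
      simpa [div_eq_mul_inv] using this
    have h3 := ENNReal.tendsto_ofReal ((Real.continuous_exp.tendsto _).comp h2)
    simpa using h3

lemma exists_beta (h : EnvLaw μ) {δ : ℝ≥0∞} (hδ : δ ≠ 0) :
    ∃ β : ℝ, 0 < β ∧ M μ (2 * β) ≤ (1 + δ) * (M μ β * M μ β) := by
  have h1 := M_tendsto h 1 one_pos
  have h2 := M_tendsto h 2 two_pos
  have h3 : Tendsto (fun k : ℕ => (1 + δ) * (M μ (1 / (k + 1)) * M μ (1 / (k + 1)))) atTop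
      (𝓝 ((1 + δ) * (1 * 1))) := by
    refine ENNReal.Tendsto.const_mul ?_ (Or.inl (by simp))
    exact ENNReal.Tendsto.mul h1 (Or.inl (by simp)) h1 (Or.inl (by simp))
  have h4 : (1 : ℝ≥0∞) < (1 + δ) * (1 * 1) := by
    rw [mul_one, mul_one]
    exact ENNReal.lt_add_right ENNReal.one_ne_top hδ
  obtain ⟨k, hk⟩ := (h2.eventually_lt h3 h4).exists
  refine ⟨1 / ((k : ℝ) + 1), by positivity, ?_⟩
  have h5 : 2 * (1 / ((k : ℝ) + 1)) = 2 / (k + 1) := by ring
  rw [h5]
  exact hk.le

lemma beta2_pos {V : Type} [Countable V] (P : V → PMF V) (h : EnvLaw μ) {G : ℝ≥0∞} (hG : G ≠ ⊤)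
    (hg : ∀ x y, g P x y ≤ G) (x : V) : 0 < beta2 P μ x := by
  have := h.prob
  have hδ0 : (2 * (G + 1))⁻¹ ≠ 0 := by
    rw [Ne, ENNReal.inv_eq_zero]
    exact ENNReal.mul_ne_top (by simp) (by simp [hG])
  have hne : 2 * (G + 1) ≠ 0 := by simp
  have hnt : 2 * (G + 1) ≠ ⊤ := ENNReal.mul_ne_top (by simp) (by simp [hG])
  obtain ⟨β, hβ, hM⟩ := exists_beta h hδ0
  have hδ : 2 * (2 * (G + 1))⁻¹ * G ≤ 1 := by
    calc 2 * (2 * (G + 1))⁻¹ * G = (2 * G) * (2 * (G + 1))⁻¹ := by ring
      _ ≤ (2 * (G + 1)) * (2 * (G + 1))⁻¹ := by gcongr; exact le_self_add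
      _ = 1 := ENNReal.mul_inv_cancel hne hnt
  have hL : L2Bounded P μ β x := by
    refine L2_of_bound (C := 1 + 2 * (2 * (G + 1))⁻¹ * G) P β μ ?_ (h.expMoment β hβ) x ?_
    · exact lt_of_le_of_lt (add_le_add_right hδ 1) (by norm_num)
    · intro n
      refine (F_bound P β μ hg hδ hM n 0 x x).trans ?_
      gcongr
      exact hg x x
  refine lt_of_lt_of_le (ENNReal.ofReal_pos.mpr hβ) ?_
  refine le_sSup ⟨⟨β, hβ.le⟩, ?_, hL⟩
  rw [ENNReal.ofReal_eq_coe_nnreal hβ.le]
  rfl

end Env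

section Model

/-- the four unit steps -/
def steps : Finset (ℤ × ℤ) := {(1, 0), (-1, 0), (0, 1), (0, -1)}

/-- the number of colours at a vertex of the square lattice -/
def nn (z : ℤ × ℤ) : ℕ := 2 ^ (Encodable.encode z + 1)

lemma nn_pos (z : ℤ × ℤ) : 0 < nn z := by unfold nn; positivity

instance (z : ℤ × ℤ) : NeZero (nn z) := ⟨(nn_pos z).ne'⟩

/-- the state space: a vertex of the square lattice together with a colour -/
abbrev VV : Type := Σ z : ℤ × ℤ, Fin (nn z)

/-- inverse number of colours -/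
noncomputable def iv (z : ℤ × ℤ) : ℝ≥0∞ := ((nn z : ℕ) : ℝ≥0∞)⁻¹

lemma nn_iv (z : ℤ × ℤ) : (nn z : ℝ≥0∞) * iv z = 1 := by
  unfold iv
  apply ENNReal.mul_inv_cancel
  · exact_mod_cast (nn_pos z).ne'
  · exact ENNReal.natCast_ne_top _

lemma tsum_iv : ∑' z, iv z ≤ 1 := by
  have h1 : ∀ z, iv z = (fun n : ℕ => ((2 : ℝ≥0∞)⁻¹) ^ (n + 1)) (Encodable.encode z) := by
    intro z
    simp only [iv, nn]
    push_cast
    rw [ENNReal.inv_pow]
  simp only [h1]
  refine (ENNReal.tsum_comp_le_tsum_of_injective (Encodable.encode_injective (α := ℤ × ℤ))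
    (fun n : ℕ => ((2 : ℝ≥0∞)⁻¹) ^ (n + 1))).trans ?_
  rw [ENNReal.tsum_geometric_add_one]
  have h2 : (1 - (2 : ℝ≥0∞)⁻¹)⁻¹ = 2 := by
    rw [ENNReal.one_sub_inv_two, inv_inv]
  rw [h2]
  rw [ENNReal.inv_mul_cancel (by norm_num) (by norm_num)]

/-- transition probabilities -/
noncomputable def pf (x y : VV) : ℝ≥0∞ := if y.1 - x.1 ∈ steps then 4⁻¹ * iv y.1 else 0

lemma pf_sum (x : VV) (h : ℤ × ℤ → ℝ≥0∞) :
    ∑' y : VV, pf x y * h y.1 = ∑ s ∈ steps, 4⁻¹ * h (x.1 + s) := by
  rw [ENNReal.tsum_sigma']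
  have h1 : ∀ z : ℤ × ℤ, ∑' c : Fin (nn z), pf x ⟨z, c⟩ * h z =
      if z - x.1 ∈ steps then 4⁻¹ * h z else 0 := by
    intro z
    rw [tsum_fintype]
    simp only [pf, Finset.sum_const, Finset.card_univ, Fintype.card_fin, nsmul_eq_mul]
    split_ifs with hz
    · calc (nn z : ℝ≥0∞) * (4⁻¹ * iv z * h z) = (nn z * iv z) * (4⁻¹ * h z) := by ring
        _ = _ := by rw [nn_iv, one_mul]
    · simp
  simp only [h1]
  rw [← (Equiv.addLeft x.1).tsum_eq, tsum_eq_sum (s := steps)]
  · refine Finset.sum_congr rfl fun s hs => ?_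
    simp [hs]
  · intro s hs
    simp [hs]

lemma pf_one (x : VV) : ∑' y : VV, pf x y = 1 := by
  have := pf_sum x (fun _ => 1)
  simp only [mul_one, Finset.sum_const] at this
  rw [this]
  have h4 : steps.card = 4 := by decide
  rw [h4, nsmul_eq_mul]
  exact ENNReal.mul_inv_cancel (by norm_num) (by norm_num)

/-- the chain -/
noncomputable def PP (x : VV) : PMF VV := ⟨pf x, by rw [← pf_one x]; exact ENNReal.summable.hasSum⟩

lemma PP_apply (x y : VV) : PP x y = pf x y := rfl

/-- number of one-dimensional simple random walk paths -/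
def NN : ℕ → ℤ → ℕ
  | 0, k => if k = 0 then 1 else 0
  | n + 1, k => NN n (k - 1) + NN n (k + 1)

lemma NN_zero' (n : ℕ) : ∀ k : ℤ, (∀ j : ℕ, k ≠ n - 2 * j) → NN n k = 0 := by
  induction n with
  | zero =>
    intro k hk
    have := hk 0
    simp at this
    simp [NN, this]
  | succ n ih =>
    intro k hk
    simp only [NN]
    rw [ih (k - 1), ih (k + 1)]
    · intro j hj
      refine hk (j + 1) ?_
      push_cast
      linarith
    · intro j hj
      refine hk j ?_
      push_cast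
      linarith

lemma NN_eq (n : ℕ) : ∀ j : ℕ, NN n ((n : ℤ) - 2 * j) = n.choose j := by
  induction n with
  | zero =>
    intro j
    rcases Nat.eq_zero_or_pos j with rfl | hj
    · simp [NN]
    · have h1 : ((0 : ℕ) : ℤ) - 2 * (j : ℤ) ≠ 0 := by push_cast; omega
      simp only [NN]
      rw [if_neg h1, Nat.choose_eq_zero_of_lt hj]
  | succ n ih =>
    intro j
    simp only [NN]
    have h1 : ((n + 1 : ℕ) : ℤ) - 2 * j - 1 = n - 2 * j := by push_cast; ring
    rw [h1, ih]
    rcases j with _ | j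
    · rw [NN_zero' n]
      · simp
      · intro i; push_cast; omega
    · have h2 : ((n + 1 : ℕ) : ℤ) - 2 * ((j + 1 : ℕ) : ℤ) + 1 = n - 2 * j := by push_cast; ring
      rw [h2, ih, Nat.choose_succ_succ, add_comm]

lemma NN_le (n : ℕ) (k : ℤ) : NN n k ≤ n.choose (n / 2) := by
  by_cases h : ∃ j : ℕ, k = n - 2 * j
  · obtain ⟨j, rfl⟩ := h
    rw [NN_eq]
    exact Nat.choose_le_middle j n
  · push Not at h
    rw [NN_zero' n k h]
    exact Nat.zero_le _

/-- number of planar paths -/
def pN (n : ℕ) (z : ℤ × ℤ) : ℕ := NN n (z.1 + z.2) * NN n (z.1 - z.2)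

lemma pN_succ (n : ℕ) (z : ℤ × ℤ) : pN (n + 1) z = ∑ s ∈ steps, pN n (z - s) := by
  have h : ∑ s ∈ steps, pN n (z - s) = pN n (z - (1, 0)) + (pN n (z - (-1, 0)) +
      (pN n (z - (0, 1)) + pN n (z - (0, -1)))) := by
    unfold steps
    rw [Finset.sum_insert (by decide), Finset.sum_insert (by decide),
      Finset.sum_insert (by decide), Finset.sum_singleton]
  rw [h]
  obtain ⟨a, b⟩ := z
  simp only [pN, NN, Prod.mk_sub_mk]
  have e1 : a - 1 + (b - 0) = a + b - 1 := by ring
  have e2 : a - 1 - (b - 0) = a - b - 1 := by ring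
  have e3 : a - -1 + (b - 0) = a + b + 1 := by ring
  have e4 : a - -1 - (b - 0) = a - b + 1 := by ring
  have e5 : a - 0 + (b - 1) = a + b - 1 := by ring
  have e6 : a - 0 - (b - 1) = a - b + 1 := by ring
  have e7 : a - 0 + (b - -1) = a + b + 1 := by ring
  have e8 : a - 0 - (b - -1) = a - b - 1 := by ring
  rw [e1, e2, e3, e4, e5, e6, e7, e8]
  ring

lemma pN_one (z : ℤ × ℤ) : pN 1 z = if z ∈ steps then 1 else 0 := by
  rw [pN_succ]
  have : ∀ s, pN 0 (z - s) = if z = s then 1 else 0 := by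
    intro s
    simp only [pN, NN, Prod.fst_sub, Prod.snd_sub]
    by_cases h : z = s
    · simp [h]
    · rw [if_neg h]
      rcases eq_or_ne (z.1 - s.1 + (z.2 - s.2)) 0 with h1 | h1
      · rcases eq_or_ne (z.1 - s.1 - (z.2 - s.2)) 0 with h2 | h2
        · exfalso
          apply h
          ext <;> omega
        · simp [h2]
      · simp [h1]
  simp only [this]
  simp

lemma step_eq (n : ℕ) : ∀ x y : VV,
    stepN PP (n + 1) x y = (pN (n + 1) (y.1 - x.1) : ℝ≥0∞) * (4⁻¹) ^ (n + 1) * iv y.1 := by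
  induction n with
  | zero =>
    intro x y
    simp only [stepN, PMF.bind_apply, PMF.pure_apply]
    rw [tsum_eq_single y]
    · simp only [if_true, mul_one, PP_apply, pf, zero_add, pow_one, pN_one]
      split_ifs <;> simp
    · intro z hz
      simp [hz.symm]
  | succ n ih =>
    intro x y
    rw [stepN, PMF.bind_apply]
    simp only [ih, PP_apply]
    rw [pf_sum x (fun z => (pN (n + 1) (y.1 - z) : ℝ≥0∞) * (4⁻¹) ^ (n + 1) * iv y.1)]
    rw [pN_succ (n + 1)]
    push_cast
    rw [Finset.sum_mul, Finset.sum_mul]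
    refine Finset.sum_congr rfl fun s _ => ?_
    rw [sub_sub, pow_succ]
    ring

lemma choose_bound_even (m : ℕ) : (3 * m + 1) * (m.centralBinom) ^ 2 ≤ 16 ^ m := by
  induction m with
  | zero => simp
  | succ m ih =>
    have h := Nat.succ_mul_centralBinom_succ m
    have hp : 0 < (m + 1) ^ 2 * (3 * m + 1) := by positivity
    refine Nat.le_of_mul_le_mul_left ?_ hp
    have h2 : (m + 1) ^ 2 * (m + 1).centralBinom ^ 2 = (2 * (2 * m + 1)) ^ 2 * m.centralBinom ^ 2 := by
      rw [← mul_pow, ← mul_pow, h]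
    calc (m + 1) ^ 2 * (3 * m + 1) * ((3 * (m + 1) + 1) * (m + 1).centralBinom ^ 2)
        = (3 * m + 1) * (3 * (m + 1) + 1) * ((m + 1) ^ 2 * (m + 1).centralBinom ^ 2) := by ring
      _ = (3 * (m + 1) + 1) * (2 * (2 * m + 1)) ^ 2 * ((3 * m + 1) * m.centralBinom ^ 2) := by
          rw [h2]; ring
      _ ≤ (3 * (m + 1) + 1) * (2 * (2 * m + 1)) ^ 2 * 16 ^ m := by gcongr
      _ ≤ ((m + 1) ^ 2 * (3 * m + 1) * 16) * 16 ^ m := by
          refine Nat.mul_le_mul_right _ ?_
          nlinarith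
      _ = _ := by ring

lemma choose_bound (n : ℕ) : (n + 1) * (n.choose (n / 2)) ^ 2 ≤ 2 * 4 ^ n := by
  rcases Nat.even_or_odd' n with ⟨m, rfl | rfl⟩
  · have h1 : 2 * m / 2 = m := by omega
    rw [h1, ← Nat.centralBinom_eq_two_mul_choose]
    have h2 := choose_bound_even m
    have h3 : (4 : ℕ) ^ (2 * m) = 16 ^ m := by rw [pow_mul]; norm_num
    rw [h3]
    nlinarith [sq_nonneg (m.centralBinom), Nat.zero_le (m * m.centralBinom ^ 2)]
  · have h1 : (2 * m + 1) / 2 = m := by omega
    rw [h1]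
    have h2 := choose_bound_even m
    have h3 : (4 : ℕ) ^ (2 * m + 1) = 4 * 16 ^ m := by rw [pow_succ, pow_mul]; norm_num; ring
    have h4 : (2 * m + 1).choose m ≤ 2 * m.centralBinom := by
      rcases m with _ | m
      · simp
      · rw [Nat.choose_succ_succ]
        have h5 := Nat.choose_le_centralBinom m (m + 1)
        have h6 := Nat.choose_le_centralBinom (m + 1) (m + 1)
        rw [Nat.succ_eq_add_one]
        omega
    rw [h3]
    calc (2 * m + 1 + 1) * (2 * m + 1).choose m ^ 2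
        ≤ (2 * m + 1 + 1) * (2 * m.centralBinom) ^ 2 := by gcongr
      _ ≤ 2 * (4 * ((3 * m + 1) * m.centralBinom ^ 2)) := by
          nlinarith [Nat.zero_le (m * m.centralBinom ^ 2)]
      _ ≤ 2 * (4 * 16 ^ m) := by gcongr

lemma central_lower (m : ℕ) : 16 ^ (m + 1) ≤ 4 * (m + 1) * ((m + 1).centralBinom) ^ 2 := by
  induction m with
  | zero => simp [Nat.centralBinom]
  | succ m ih =>
    have h := Nat.succ_mul_centralBinom_succ (m + 1)
    have h2 : (m + 1 + 1) ^ 2 * (m + 1 + 1).centralBinom ^ 2 =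
        (2 * (2 * (m + 1) + 1)) ^ 2 * (m + 1).centralBinom ^ 2 := by
      rw [← mul_pow, ← mul_pow, h]
    have hp : 0 < (m + 1 + 1) * (m + 1) := by positivity
    refine Nat.le_of_mul_le_mul_left ?_ hp
    calc (m + 1 + 1) * (m + 1) * 16 ^ (m + 1 + 1)
        = (16 * ((m + 1 + 1) * (m + 1))) * 16 ^ (m + 1) := by ring
      _ ≤ (16 * ((m + 1 + 1) * (m + 1))) * (4 * (m + 1) * ((m + 1).centralBinom) ^ 2) := by
          gcongr
      _ ≤ (m + 1) * (4 * ((2 * (2 * (m + 1) + 1)) ^ 2 * (m + 1).centralBinom ^ 2)) := by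
          have : 16 * ((m + 1 + 1) * (m + 1)) ≤ (2 * (2 * (m + 1) + 1)) ^ 2 := by nlinarith
          calc 16 * ((m + 1 + 1) * (m + 1)) * (4 * (m + 1) * (m + 1).centralBinom ^ 2)
              ≤ (2 * (2 * (m + 1) + 1)) ^ 2 * (4 * (m + 1) * (m + 1).centralBinom ^ 2) := by
                gcongr
            _ = _ := by ring
      _ = (m + 1 + 1) * (m + 1) * (4 * (m + 1 + 1) * (m + 1 + 1).centralBinom ^ 2) := by
          rw [← h2]; ring

lemma step_le (n : ℕ) (x y : VV) :
    stepN PP (n + 1) x y ≤ ENNReal.ofReal (2 / (n + 2)) * iv y.1 := by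
  rw [step_eq]
  gcongr
  have h1 : (pN (n + 1) (y.1 - x.1) : ℝ) ≤ 2 * 4 ^ (n + 1) / (n + 2) := by
    rw [le_div_iff₀ (by positivity)]
    have h2 : pN (n + 1) (y.1 - x.1) ≤ ((n + 1).choose ((n + 1) / 2)) ^ 2 := by
      rw [sq]
      exact Nat.mul_le_mul (NN_le _ _) (NN_le _ _)
    have h3 := choose_bound (n + 1)
    have h4 : (n + 1 + 1) * pN (n + 1) (y.1 - x.1) ≤ 2 * 4 ^ (n + 1) :=
      le_trans (Nat.mul_le_mul_left _ h2) h3
    have h5 : (((n + 1 + 1) * pN (n + 1) (y.1 - x.1) : ℕ) : ℝ) ≤ ((2 * 4 ^ (n + 1) : ℕ) : ℝ) := by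
      exact_mod_cast h4
    push_cast at h5
    linarith
  have h6 : (4 : ℝ≥0∞)⁻¹ = ENNReal.ofReal (4⁻¹) := by
    rw [ENNReal.ofReal_inv_of_pos (by norm_num)]
    norm_num
  rw [h6, ← ENNReal.ofReal_natCast, ← ENNReal.ofReal_pow (by norm_num),
    ← ENNReal.ofReal_mul (by positivity)]
  refine ENNReal.ofReal_le_ofReal ?_
  rw [inv_pow]
  calc (pN (n + 1) (y.1 - x.1) : ℝ) * (4 ^ (n + 1))⁻¹
      ≤ (2 * 4 ^ (n + 1) / (n + 2)) * (4 ^ (n + 1))⁻¹ := by gcongr
    _ = 2 / (n + 2) := by field_simp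

lemma q_le (n : ℕ) (x y : VV) : q PP (n + 1) x y ≤ ENNReal.ofReal (4 / ((n + 2 : ℕ) : ℝ) ^ 2) := by
  unfold q
  have h0 : ENNReal.ofReal (4 / ((n + 2 : ℕ) : ℝ) ^ 2) =
      ENNReal.ofReal (2 / (n + 2)) * ENNReal.ofReal (2 / (n + 2)) := by
    rw [← ENNReal.ofReal_mul (by positivity)]
    congr 1
    push_cast
    field_simp
    norm_num
  calc ∑' v, stepN PP (n + 1) x v * stepN PP (n + 1) y v
      ≤ ∑' v : VV, (ENNReal.ofReal (2 / (n + 2)) * iv v.1) *
          (ENNReal.ofReal (2 / (n + 2)) * iv v.1) := by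
        gcongr with v
        · exact step_le n x v
        · exact step_le n y v
    _ = ENNReal.ofReal (4 / ((n + 2 : ℕ) : ℝ) ^ 2) * ∑' v : VV, iv v.1 * iv v.1 := by
        rw [h0, ← ENNReal.tsum_mul_left]
        refine tsum_congr fun v => ?_
        ring
    _ ≤ ENNReal.ofReal (4 / ((n + 2 : ℕ) : ℝ) ^ 2) * 1 := by
        gcongr
        rw [ENNReal.tsum_sigma']
        refine le_trans (le_of_eq ?_) tsum_iv
        refine tsum_congr fun z => ?_
        rw [tsum_fintype]
        simp only [Finset.sum_const, Finset.card_univ, Fintype.card_fin, nsmul_eq_mul]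
        rw [← mul_assoc, nn_iv, one_mul]
    _ = _ := mul_one _

lemma g_bound : ∃ G : ℝ≥0∞, G ≠ ⊤ ∧ ∀ x y : VV, g PP x y ≤ G := by
  refine ⟨∑' n : ℕ, ENNReal.ofReal (4 / ((n + 2 : ℕ) : ℝ) ^ 2), ?_, ?_⟩
  · have h1 : Summable (fun n : ℕ => 4 / ((n + 2 : ℕ) : ℝ) ^ 2) := by
      have := (Real.summable_one_div_nat_pow (p := 2)).mpr (by norm_num)
      have h2 := ((summable_nat_add_iff 2).mpr this).mul_left 4
      refine h2.congr fun n => ?_
      ring
    exact h1.tsum_ofReal_ne_top
  · intro x y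
    unfold g
    gcongr with n
    exact q_le n x y

lemma recurrent : Recurrent PP := by
  intro x
  have hiv : iv x.1 ≠ 0 := by
    unfold iv
    exact ENNReal.inv_ne_zero.mpr (ENNReal.natCast_ne_top _)
  have h1 : ∀ m : ℕ, ENNReal.ofReal (1 / (4 * ((m : ℝ) + 1))) * iv x.1 ≤
      stepN PP (2 * m + 1 + 1) x x := by
    intro m
    rw [step_eq]
    gcongr
    have h6 : (4 : ℝ≥0∞)⁻¹ = ENNReal.ofReal (4⁻¹) := by
      rw [ENNReal.ofReal_inv_of_pos (by norm_num)]
      norm_num
    rw [h6, ← ENNReal.ofReal_natCast, ← ENNReal.ofReal_pow (by norm_num),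
      ← ENNReal.ofReal_mul (by positivity)]
    refine ENNReal.ofReal_le_ofReal ?_
    have h2 : pN (2 * m + 1 + 1) (x.1 - x.1) = ((m + 1).centralBinom) ^ 2 := by
      have h3 := NN_eq (2 * m + 1 + 1) (m + 1)
      have h4 : ((2 * m + 1 + 1 : ℕ) : ℤ) - 2 * ((m + 1 : ℕ) : ℤ) = 0 := by push_cast; ring
      rw [h4] at h3
      unfold pN
      simp only [sub_self, Prod.fst_zero, Prod.snd_zero, add_zero]
      rw [h3, sq, Nat.centralBinom_eq_two_mul_choose]
      rfl
    rw [h2]
    have h5 := central_lower m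
    have h7 : (((16 : ℕ) ^ (m + 1) : ℕ) : ℝ) ≤
        ((4 * (m + 1) * ((m + 1).centralBinom) ^ 2 : ℕ) : ℝ) := by exact_mod_cast h5
    push_cast at h7
    have h8 : ((4 : ℝ)⁻¹) ^ (2 * m + 1 + 1) = (16 ^ (m + 1))⁻¹ := by
      rw [inv_pow]
      congr 1
      rw [show 2 * m + 1 + 1 = 2 * (m + 1) by ring, pow_mul]
      norm_num
    rw [h8, div_le_iff₀ (by positivity)]
    push_cast
    rw [mul_assoc, mul_comm, mul_assoc]
    rw [le_inv_mul_iff₀ (by positivity)]
    linarith
  have h2 : ∑' m : ℕ, stepN PP (2 * m + 1 + 1) x x ≤ ∑' n, stepN PP n x x := by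
    refine ENNReal.tsum_comp_le_tsum_of_injective (f := fun m : ℕ => 2 * m + 1 + 1) ?_
      (fun n => stepN PP n x x)
    intro a b hab
    simp only at hab
    omega
  rw [eq_top_iff]
  refine le_trans ?_ h2
  refine le_trans ?_ (ENNReal.tsum_le_tsum h1)
  rw [ENNReal.tsum_mul_right]
  have h3 : ∑' m : ℕ, ENNReal.ofReal (1 / (4 * ((m : ℝ) + 1))) = ⊤ := by
    by_contra hne
    have h4 : Summable (fun m : ℕ => (ENNReal.ofReal (1 / (4 * ((m : ℝ) + 1)))).toReal) :=
      ENNReal.summable_toReal hne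
    have h5 : ∀ m : ℕ, (ENNReal.ofReal (1 / (4 * ((m : ℝ) + 1)))).toReal =
        4⁻¹ * (1 / (((m + 1 : ℕ) : ℝ))) := by
      intro m
      rw [ENNReal.toReal_ofReal (by positivity)]
      push_cast
      field_simp
    simp only [h5] at h4
    have h6 : Summable (fun m : ℕ => (1 / (((m + 1 : ℕ) : ℝ)))) := by
      have := h4.mul_left 4
      refine this.congr fun m => ?_
      ring
    exact Real.not_summable_one_div_natCast ((summable_nat_add_iff 1).mp h6)
  rw [h3, ENNReal.top_mul hiv]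

/-- the graph -/
def GG : SimpleGraph VV where
  Adj x y := y.1 - x.1 ∈ steps
  symm := ⟨by
    intro x y h
    have : ∀ s : ℤ × ℤ, s ∈ steps → -s ∈ steps := by
      intro s hs
      simp only [steps, Finset.mem_insert, Finset.mem_singleton] at hs ⊢
      rcases hs with rfl | rfl | rfl | rfl <;> simp
    have h2 := this _ h
    rwa [neg_sub] at h2⟩
  loopless := ⟨by
    intro x h
    rw [sub_self] at h
    revert h
    decide⟩

lemma reach_all : ∀ a b : ℤ, ∀ c : Fin (nn (a, b)), GG.Reachable ⟨(0, 0), 0⟩ ⟨(a, b), c⟩ := by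
  have key : ∀ (z z' : ℤ × ℤ), z' - z ∈ steps →
      (∀ c : Fin (nn z), GG.Reachable ⟨(0, 0), 0⟩ ⟨z, c⟩) →
      ∀ c : Fin (nn z'), GG.Reachable ⟨(0, 0), 0⟩ ⟨z', c⟩ := by
    intro z z' hs h c
    exact (h 0).trans (SimpleGraph.Adj.reachable hs)
  have h0 : ∀ c : Fin (nn (0, 0)), GG.Reachable ⟨(0, 0), 0⟩ ⟨(0, 0), c⟩ := by
    intro c
    have h1 : GG.Reachable (⟨(0, 0), 0⟩ : VV) ⟨(1, 0), 0⟩ := by
      refine SimpleGraph.Adj.reachable ?_
      change (1, 0) - (0, 0) ∈ steps
      decide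
    refine h1.trans (SimpleGraph.Adj.reachable ?_)
    change (0, 0) - (1, 0) ∈ steps
    decide
  have h1 : ∀ a : ℤ, ∀ c : Fin (nn (a, 0)), GG.Reachable ⟨(0, 0), 0⟩ ⟨(a, 0), c⟩ := by
    intro a
    induction a using Int.induction_on with
    | zero => exact h0
    | succ a ih => exact key (a, 0) (a + 1, 0) (by simp [steps]) ih
    | pred a ih => exact key (-a, 0) (-a - 1, 0) (by simp [steps]; omega) ih
  intro a b
  induction b using Int.induction_on with
  | zero => exact h1 a
  | succ b ih => exact key (a, b) (a, b + 1) (by simp [steps]) ih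
  | pred b ih => exact key (a, -b) (a, -b - 1) (by simp [steps]; omega) ih

lemma connected : GG.Connected := by
  refine ⟨fun x y => ?_⟩
  have h1 := reach_all x.1.1 x.1.2 x.2
  have h2 := reach_all y.1.1 y.1.2 y.2
  exact h1.symm.trans h2

lemma pf_ne (x y : VV) : pf x y ≠ 0 ↔ GG.Adj x y := by
  unfold pf
  change _ ↔ y.1 - x.1 ∈ steps
  split_ifs with h
  · simp only [h, iff_true]
    refine mul_ne_zero (by simp) ?_
    unfold iv
    exact ENNReal.inv_ne_zero.mpr (ENNReal.natCast_ne_top _)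
  · simp [h]

lemma irred : Irred PP := by
  intro x y
  obtain ⟨w⟩ := connected.preconnected x y
  induction w with
  | nil => exact ⟨0, by simp [stepN]⟩
  | @cons u v w h p ih =>
    obtain ⟨n, hn⟩ := ih
    refine ⟨n + 1, ?_⟩
    rw [stepN, PMF.bind_apply]
    intro h0
    rw [ENNReal.tsum_eq_zero] at h0
    have := h0 v
    rw [mul_eq_zero] at this
    rcases this with h1 | h1
    · exact (pf_ne u v).mpr h h1
    · exact hn h1

lemma reversible : Reversible PP := by
  refine ⟨fun x => ((nn x.1 : ℕ) : NNReal)⁻¹, ?_, ?_⟩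
  · intro x
    have := nn_pos x.1
    positivity
  · intro x y
    have h1 : ∀ z : ℤ × ℤ, ((((nn z : ℕ) : NNReal)⁻¹ : NNReal) : ℝ≥0∞) = iv z := by
      intro z
      unfold iv
      rw [ENNReal.coe_inv]
      · simp
      · exact_mod_cast (nn_pos z).ne'
    simp only [h1, PP_apply, pf]
    have h2 : y.1 - x.1 ∈ steps ↔ x.1 - y.1 ∈ steps := by
      have : ∀ s : ℤ × ℤ, s ∈ steps → -s ∈ steps := by
        intro s hs
        simp only [steps, Finset.mem_insert, Finset.mem_singleton] at hs ⊢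
        rcases hs with rfl | rfl | rfl | rfl <;> simp
      constructor
      · intro h; have := this _ h; rwa [neg_sub] at this
      · intro h; have := this _ h; rwa [neg_sub] at this
    by_cases h : y.1 - x.1 ∈ steps
    · rw [if_pos h, if_pos (h2.mp h)]; ring
    · rw [if_neg h, if_neg (fun h' => h (h2.mpr h'))]; simp

lemma fin_support (x : VV) : (PP x).support.Finite := by
  have h1 : (PP x).support ⊆ ⋃ s ∈ steps, Set.range (fun c : Fin (nn (x.1 + s)) =>
      (⟨x.1 + s, c⟩ : VV)) := by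
    intro y hy
    rw [PMF.mem_support_iff, PP_apply, pf_ne] at hy
    have hy' : y.1 - x.1 ∈ steps := hy
    simp only [Set.mem_iUnion]
    refine ⟨y.1 - x.1, hy', ?_⟩
    obtain ⟨z, c⟩ := y
    simp only at hy' ⊢
    have : z = x.1 + (z - x.1) := by abel
    generalize z - x.1 = s at this
    subst this
    exact ⟨c, rfl⟩
  refine Set.Finite.subset ?_ h1
  refine Set.Finite.biUnion (Finset.finite_toSet steps) fun s _ => Set.finite_range _

lemma law_exists : ∃ μ : Measure ℝ, EnvLaw μ := by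
  refine ⟨(2⁻¹ : ℝ≥0∞) • Measure.dirac 1 + (2⁻¹ : ℝ≥0∞) • Measure.dirac (-1), ?_, ?_, ?_, ?_⟩
  · refine ⟨?_⟩
    simp [ENNReal.inv_two_add_inv_two]
  · intro β _
    refine Integrable.add_measure ?_ ?_
    · exact (integrable_dirac (by simp)).smul_measure (by simp)
    · exact (integrable_dirac (by simp)).smul_measure (by simp)
  · rw [integral_add_measure]
    · simp
    · exact (integrable_dirac (by simp)).smul_measure (by simp)
    · exact (integrable_dirac (by simp)).smul_measure (by simp)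
  · rw [integral_add_measure]
    · simp; norm_num
    · exact (integrable_dirac (by simp)).smul_measure (by simp)
    · exact (integrable_dirac (by simp)).smul_measure (by simp)

end Model

/-- There are a connected graph and an irreducible, reversible and recurrent nearest-neighbour
chain on it, with finitely many possible steps from each vertex, such that `β_2 > 0` for every
environment law. -/
theorem result : ∃ (V : Type) (G : SimpleGraph V) (P : V → PMF V),
    Countable V ∧ Infinite V ∧ G.Connected ∧ (∀ x y, P x y ≠ 0 → G.Adj x y) ∧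
    (∀ x, (P x).support.Finite) ∧ Irred P ∧ Reversible P ∧ Recurrent P ∧
    (∃ μ : Measure ℝ, EnvLaw μ) ∧ ∀ μ : Measure ℝ, EnvLaw μ → ∀ x, 0 < beta2 P μ x := by
  obtain ⟨G, hG, hg⟩ := g_bound
  refine ⟨VV, GG, PP, inferInstance, ?_, connected, fun x y h => (pf_ne x y).mp h, fin_support,
    irred, reversible, recurrent, law_exists, fun μ hμ x => beta2_pos PP hμ hG hg x⟩
  exact Infinite.of_injective (fun z : ℤ × ℤ => (⟨z, 0⟩ : VV)) fun a b h => by
    simpa using congrArg Sigma.fst h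

end Pool.Agent.Results.MP_6abe48_pr.ReversibleRecurrent
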